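import Pool.Agent.Helper606_LI.H

/-!
# Infinite-dimensional Lie algebras whose proper subalgebras are finite-dimensional

`L` is an infinite-dimensional Lie algebra over a field `k` such that every proper subalgebra of `L`
is finite-dimensional.  It is unknown whether such an algebra exists.  We show that

* the centre `Z` of `L` is finite-dimensional and contains all proper ideals, `L` is perfect, and
  `L / Z` is a simple algebra with the same property;
* for every grading of `L` by an abelian group `Γ`, the degrees in which `L` is not zero are in the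
  kernel of every homomorphism of `Γ` to a linearly ordered abelian group; so a grading by a linearly
  ordered abelian group is trivial;
* if `k` is algebraically closed of characteristic zero, then every locally finite derivation of `L`
  is zero, every element of `L` which acts locally finitely on `L` is central, and for every
  noncentral element `x` of `L` there is an element `y` such that `L` is generated by `x` and `y`.
-/

set_option autoImplicit false

namespace Pool.Agent.Results.MP_f38670_al.NoLocallyFiniteDerivations

/-- Every proper subalgebra is finite-dimensional. -/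
def ProperSubalgebrasFinite (k L : Type) [Field k] [LieRing L] [LieAlgebra k L] : Prop :=
  ∀ S : LieSubalgebra k L, S ≠ ⊤ → FiniteDimensional k S

/-- `L` is the direct sum of the subspaces `W a`, and `[W a, W b]` is contained in `W (a + b)`. -/
def IsGrading {k L Γ : Type} [Field k] [LieRing L] [LieAlgebra k L] [AddCommGroup Γ]
    (W : Γ → Submodule k L) : Prop :=
  (⨆ a, W a = ⊤) ∧ iSupIndep W ∧ ∀ a b : Γ, ∀ u ∈ W a, ∀ v ∈ W b, ⁅u, v⁆ ∈ W (a + b)

/-- The linear map `D` is locally finite: every element of `L` is in a finite-dimensional subspace
which is mapped to itself by `D`. -/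
def IsLocallyFinite {k L : Type} [Field k] [AddCommGroup L] [Module k L] (D : L →ₗ[k] L) : Prop :=
  ∀ y : L, ∃ V : Submodule k L, FiniteDimensional k V ∧ y ∈ V ∧ ∀ v ∈ V, D v ∈ V

/-- `x` acts locally finitely: every element of `L` is in a finite-dimensional subspace which is
mapped to itself by `ad x`. -/
def ActsLocallyFinitely (k : Type) {L : Type} [Field k] [LieRing L] [LieAlgebra k L] (x : L) :
    Prop :=
  ∀ y : L, ∃ V : Submodule k L, FiniteDimensional k V ∧ y ∈ V ∧ ∀ v ∈ V, ⁅x, v⁆ ∈ V

/-- **Main result.**  Let `L` be an infinite-dimensional Lie algebra over a field `k` such that every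
proper subalgebra of `L` is finite-dimensional.  (1) The centre of `L` is finite-dimensional and
contains every proper ideal, and `[L, L] = L`.  (2) The quotient of `L` by its centre is a simple
infinite-dimensional Lie algebra whose proper subalgebras are finite-dimensional.  (3) For every
grading of `L` by an abelian group `Γ` and every homomorphism `φ` of `Γ` to a linearly ordered abelian
group, the pieces whose degree is not in the kernel of `φ` are zero.
(4) If `k` is algebraically closed of characteristic zero, then every locally finite derivation of `L`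
is zero, every element which acts locally finitely is central, and for every noncentral `x` there is
a `y` such that `x` and `y` generate `L`. -/
theorem result (k L : Type) [Field k] [LieRing L] [LieAlgebra k L]
    (hinf : ¬ FiniteDimensional k L) (hP : ProperSubalgebrasFinite k L) :
    (FiniteDimensional k (LieAlgebra.center k L) ∧
      (∀ I : LieIdeal k L, I ≠ ⊤ → I ≤ LieAlgebra.center k L) ∧
      (⁅(⊤ : LieIdeal k L), (⊤ : LieIdeal k L)⁆ : LieIdeal k L) = ⊤) ∧
    (LieAlgebra.IsSimple k (L ⧸ LieAlgebra.center k L) ∧
      ¬ FiniteDimensional k (L ⧸ LieAlgebra.center k L) ∧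
      ProperSubalgebrasFinite k (L ⧸ LieAlgebra.center k L)) ∧
    (∀ (Γ Λ : Type) [AddCommGroup Γ] [AddCommGroup Λ] [LinearOrder Λ] [IsOrderedAddMonoid Λ]
      (φ : Γ →+ Λ) (W : Γ → Submodule k L), IsGrading W → ∀ a : Γ, φ a ≠ 0 → W a = ⊥) ∧
    (IsAlgClosed k → CharZero k →
      (∀ D : LieDerivation k L L, IsLocallyFinite (D : L →ₗ[k] L) → D = 0) ∧
      (∀ x : L, ActsLocallyFinitely k x → x ∈ LieAlgebra.center k L) ∧
      ∀ x : L, x ∉ LieAlgebra.center k L → ∃ y : L, LieSubalgebra.lieSpan k L {x, y} = ⊤) := by
  refine ⟨⟨Pool.Agent.Helper606_LI.center_fd hinf hP,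
    Pool.Agent.Helper606_LI.ideal_le_center hinf hP, Pool.Agent.Helper606_LI.derived_top hinf hP⟩,
    ⟨Pool.Agent.Helper606_LI.quot_simple hinf hP, Pool.Agent.Helper606_LI.quot_inf hinf hP,
      Pool.Agent.Helper606_LI.quot_P hP⟩, ?_, ?_⟩
  · intro Γ Λ _ _ _ _ φ W hW a ha
    exact Pool.Agent.Helper606_LI.no_ne hinf hP φ ⟨hW.1, hW.2.1, hW.2.2⟩ ha
  · intro _ _
    refine ⟨fun D hD => ?_, fun x hx => Pool.Agent.Helper606_LI.LF_central hinf hP hx,
      fun x hx => ?_⟩
    swap
    · by_contra hcon
      push Not at hcon
      apply hx
      apply Pool.Agent.Helper606_LI.LF_central hinf hP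
      intro y
      refine ⟨(LieSubalgebra.lieSpan k L {x, y}).toSubmodule, hP _ (hcon y),
        LieSubalgebra.subset_lieSpan (Set.mem_insert_of_mem _ rfl), fun v hv => ?_⟩
      exact LieSubalgebra.lie_mem _ (LieSubalgebra.subset_lieSpan (Set.mem_insert _ _)) hv
    have h1 : (D : L →ₗ[k] L) = 0 := by
      refine Pool.Agent.Helper606_LI.der_zero hinf hP (fun u v => ?_) hD
      have h2 := D.apply_lie_eq_add u v
      rw [add_comm] at h2
      exact h2
    apply LieDerivation.ext
    intro y
    exact congrArg (fun f : L →ₗ[k] L => f y) h1

end Pool.Agent.Results.MP_f38670_al.NoLocallyFiniteDerivations
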